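import Pool.Agent.TH198.AT.Stmts

/-! Piece `St_PH1` of the de Almeida–Thouless project: phase 1, lower bound on `[q,1]`. -/

set_option autoImplicit false

open MeasureTheory Set Filter Topology

namespace Pool.TH355.AT

open Pool.TH198.AT

/-! ### `log cosh` and `tanh` -/

theorem hasDerivAt_th (x : ℝ) : HasDerivAt Real.tanh (1 - Real.tanh x ^ 2) x := by
  have h0 : Real.cosh x ≠ 0 := (Real.cosh_pos x).ne'
  have h := (Real.hasDerivAt_sinh x).div (Real.hasDerivAt_cosh x) h0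
  have e : (fun x => Real.sinh x / Real.cosh x) = Real.tanh := by
    funext y; rw [Real.tanh_eq_sinh_div_cosh]
  have h' : HasDerivAt Real.tanh
      ((Real.cosh x * Real.cosh x - Real.sinh x * Real.sinh x) / Real.cosh x ^ 2) x := by
    rw [← e]; exact h
  convert h' using 1
  rw [Real.tanh_eq_sinh_div_cosh]
  field_simp

theorem hasDerivAt_L (x : ℝ) :
    HasDerivAt (fun x => Real.log (Real.cosh x)) (Real.tanh x) x := by
  have h := (Real.hasDerivAt_cosh x).log (Real.cosh_pos x).ne'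
  rw [← Real.tanh_eq_sinh_div_cosh] at h
  exact h

theorem abs_th (x : ℝ) : |Real.tanh x| ≤ 1 :=
  abs_le.2 ⟨(Real.neg_one_lt_tanh x).le, (Real.tanh_lt_one x).le⟩

theorem L_nonneg (x : ℝ) : 0 ≤ Real.log (Real.cosh x) := Real.log_nonneg (Real.one_le_cosh x)

theorem L_le (x : ℝ) : Real.log (Real.cosh x) ≤ |x| := by
  rw [Real.log_le_iff_le_exp (Real.cosh_pos x), Real.cosh_eq]
  have h1 : Real.exp x ≤ Real.exp |x| := Real.exp_le_exp.2 (le_abs_self x)
  have h2 : Real.exp (-x) ≤ Real.exp |x| := Real.exp_le_exp.2 (neg_le_abs x)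
  linarith

theorem L_convex (x y : ℝ) :
    Real.log (Real.cosh x) + (y - x) * Real.tanh x ≤ Real.log (Real.cosh y) := by
  set T := Real.tanh x with hT
  have hT1 : -1 < T := Real.neg_one_lt_tanh x
  have hT2 : T < 1 := Real.tanh_lt_one x
  have h1 := convexOn_exp.2 (mem_univ (y - x)) (mem_univ (-(y - x)))
    (by linarith : 0 ≤ (1 + T) / 2) (by linarith : 0 ≤ (1 - T) / 2) (by ring)
  simp only [smul_eq_mul] at h1
  have e1 : (1 + T) / 2 * (y - x) + (1 - T) / 2 * (-(y - x)) = (y - x) * T := by ring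
  rw [e1] at h1
  have hs : Real.sinh x = Real.cosh x * T := by
    rw [hT, Real.tanh_eq_sinh_div_cosh]
    field_simp [(Real.cosh_pos x).ne']
  have e2 : Real.cosh y = Real.cosh x *
      ((1 + T) / 2 * Real.exp (y - x) + (1 - T) / 2 * Real.exp (-(y - x))) := by
    have h3 : Real.cosh y = Real.cosh (x + (y - x)) := by ring_nf
    rw [h3, Real.cosh_add, hs, Real.cosh_eq (y - x), Real.sinh_eq (y - x)]
    ring
  have h4 : Real.cosh x * Real.exp ((y - x) * T) ≤ Real.cosh y := by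
    rw [e2]
    exact mul_le_mul_of_nonneg_left h1 (Real.cosh_pos x).le
  have h5 := Real.log_le_log (by positivity [Real.cosh_pos x]) h4
  rw [Real.log_mul (Real.cosh_pos x).ne' (Real.exp_pos _).ne', Real.log_exp] at h5
  exact h5

/-! ### the distribution function, extended to the line -/

noncomputable def zt (ζ : ℝ → ℝ) (r : ℝ) : ℝ := ζ (max 0 (min 1 r))

theorem clamp_mem (r : ℝ) : max 0 (min 1 r) ∈ Icc (0 : ℝ) 1 :=
  ⟨le_max_left _ _, max_le zero_le_one (min_le_left _ _)⟩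

theorem clamp_eq {r : ℝ} (h : r ∈ Icc (0 : ℝ) 1) : max 0 (min 1 r) = r := by
  rw [min_eq_right h.2, max_eq_right h.1]

theorem zt_mono {ζ : ℝ → ℝ} (h : IsCdf ζ) : Monotone (zt ζ) := fun a b hab =>
  h.1 (clamp_mem a) (clamp_mem b) (max_le_max le_rfl (min_le_min le_rfl hab))

theorem zt_eq {ζ : ℝ → ℝ} {r : ℝ} (h : r ∈ Icc (0 : ℝ) 1) : zt ζ r = ζ r := by
  unfold zt; rw [clamp_eq h]

theorem zt_mem {ζ : ℝ → ℝ} (h : IsCdf ζ) (r : ℝ) : 0 ≤ zt ζ r ∧ zt ζ r ≤ 1 :=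
  h.2.1 _ (clamp_mem r)

theorem zt_cont {ζ : ℝ → ℝ} (h : IsCdf ζ) {t : ℝ} (ht : t ∈ Ico (0 : ℝ) 1) :
    ContinuousWithinAt (zt ζ) (Ici t) t := by
  have h1 := h.2.2.2 t ht
  refine h1.congr_of_eventuallyEq ?_ (zt_eq ⟨ht.1, ht.2.le⟩)
  filter_upwards [self_mem_nhdsWithin, nhdsWithin_le_nhds (Iio_mem_nhds ht.2)] with r hr1 hr2
  exact zt_eq ⟨ht.1.trans hr1, le_of_lt hr2⟩

/-! ### a continuity lemma -/

theorem cont_of_lip {F : ℝ → ℝ → ℝ} {S : Set ℝ} {M : ℝ}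
    (h : ∀ t ∈ S, ∀ t' ∈ S, ∀ x x', |F t x - F t' x'| ≤ M * (|t - t'| + |x - x'|)) :
    ContinuousOn (fun p : ℝ × ℝ => F p.1 p.2) (S ×ˢ univ) := by
  rintro ⟨t0, x0⟩ ⟨ht0, -⟩
  have h0 : Tendsto (fun p : ℝ × ℝ => M * (|p.1 - t0| + |p.2 - x0|)) (𝓝[S ×ˢ univ] (t0, x0))
      (𝓝 0) := by
    have h2 : Continuous (fun p : ℝ × ℝ => M * (|p.1 - t0| + |p.2 - x0|)) := by fun_prop
    have h1 := (h2.tendsto (t0, x0)).mono_left (nhdsWithin_le_nhds (s := S ×ˢ univ))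
    simpa using h1
  rw [ContinuousWithinAt, tendsto_iff_norm_sub_tendsto_zero]
  refine squeeze_zero' (Eventually.of_forall fun _ => norm_nonneg _) ?_ h0
  filter_upwards [self_mem_nhdsWithin] with p hp
  exact h p.1 hp.1 t0 ht0 p.2 x0

/-! ### the function `f` -/

section fside

variable {β C : ℝ} {ζ : ℝ → ℝ} {f fx fxx : ℝ → ℝ → ℝ}

theorem slice_cont {F : ℝ → ℝ → ℝ} {S : Set ℝ}
    (c : ContinuousOn (fun p : ℝ × ℝ => F p.1 p.2) (S ×ˢ univ)) (y : ℝ) :
    ContinuousOn (fun r => F r y) S :=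
  c.comp (Continuous.continuousOn (by fun_prop) : ContinuousOn (fun r : ℝ => (r, y)) S)
    fun r hr => ⟨hr, mem_univ _⟩

theorem uIcc_sub {s t : ℝ} (hs : s ∈ Icc (0 : ℝ) 1) (ht : t ∈ Icc (0 : ℝ) 1) :
    uIcc s t ⊆ Icc 0 1 := by
  intro r hr
  rw [mem_uIcc] at hr
  rcases hr with h | h
  · exact ⟨hs.1.trans h.1, h.2.trans ht.2⟩
  · exact ⟨ht.1.trans h.1, h.2.trans hs.2⟩

theorem g_int (hζ : IsCdf ζ) (c1 : ContinuousOn (fun p : ℝ × ℝ => fx p.1 p.2) (Icc 0 1 ×ˢ univ))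
    (c2 : ContinuousOn (fun p : ℝ × ℝ => fxx p.1 p.2) (Icc 0 1 ×ˢ univ)) {s t : ℝ}
    (hs : s ∈ Icc (0 : ℝ) 1) (ht : t ∈ Icc (0 : ℝ) 1) (y : ℝ) :
    IntervalIntegrable (fun r => β ^ 2 * (fxx r y + zt ζ r * fx r y ^ 2)) volume s t := by
  have hsub := uIcc_sub hs ht
  have a1 : ContinuousOn (fun r => fxx r y) (uIcc s t) := (slice_cont c2 y).mono hsub
  have a2 : ContinuousOn (fun r => fx r y ^ 2) (uIcc s t) := ((slice_cont c1 y).mono hsub).pow 2
  exact (a1.intervalIntegrable.add ((zt_mono hζ).intervalIntegrable.mul_continuousOn a2)).const_mul _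

theorem f_eq (hf : ∀ t ∈ Icc (0 : ℝ) 1, ∀ x, f t x =
      Real.log (Real.cosh x) + ∫ r in t..1, β ^ 2 * (fxx r x + ζ r * fx r x ^ 2)) {t : ℝ}
    (ht : t ∈ Icc (0 : ℝ) 1) (y : ℝ) :
    f t y = Real.log (Real.cosh y) +
      ∫ r in t..1, β ^ 2 * (fxx r y + zt ζ r * fx r y ^ 2) := by
  rw [hf t ht y]
  congr 1
  refine intervalIntegral.integral_congr fun r hr => ?_
  have h1 := uIcc_sub ht ⟨zero_le_one, le_rfl⟩ hr
  show β ^ 2 * (fxx r y + ζ r * fx r y ^ 2) = β ^ 2 * (fxx r y + zt ζ r * fx r y ^ 2)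
  rw [zt_eq h1]

theorem f_der (hζ : IsCdf ζ)
    (c1 : ContinuousOn (fun p : ℝ × ℝ => fx p.1 p.2) (Icc 0 1 ×ˢ univ))
    (c2 : ContinuousOn (fun p : ℝ × ℝ => fxx p.1 p.2) (Icc 0 1 ×ˢ univ))
    (hf : ∀ t ∈ Icc (0 : ℝ) 1, ∀ x, f t x =
      Real.log (Real.cosh x) + ∫ r in t..1, β ^ 2 * (fxx r x + ζ r * fx r x ^ 2)) {t : ℝ}
    (ht : t ∈ Ico (0 : ℝ) 1) (y : ℝ) :
    HasDerivWithinAt (fun τ => f τ y) (-(β ^ 2 * (fxx t y + zt ζ t * fx t y ^ 2))) (Ici t) t := by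
  have ht' : t ∈ Icc (0 : ℝ) 1 := ⟨ht.1, ht.2.le⟩
  have h1' : (1 : ℝ) ∈ Icc (0 : ℝ) 1 := ⟨zero_le_one, le_rfl⟩
  have hi := g_int (β := β) hζ c1 c2 ht' h1' y
  have hmeas : StronglyMeasurableAtFilter (fun r => β ^ 2 * (fxx r y + zt ζ r * fx r y ^ 2))
      (𝓝[Ioi t] t) volume :=
    AEStronglyMeasurable.stronglyMeasurableAtFilter_of_mem hi.aestronglyMeasurable
      (Ioc_mem_nhdsGT ht.2)
  have hm : Icc (0 : ℝ) 1 ∈ 𝓝[Ioi t] t := by
    refine mem_of_superset (Ioc_mem_nhdsGT ht.2) fun r hr => ⟨ht.1.trans hr.1.le, hr.2⟩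
  have b1 : ContinuousWithinAt (fun r => fxx r y) (Ioi t) t :=
    ((slice_cont c2 y) t ht').mono_of_mem_nhdsWithin hm
  have b2 : ContinuousWithinAt (fun r => fx r y) (Ioi t) t :=
    ((slice_cont c1 y) t ht').mono_of_mem_nhdsWithin hm
  have b3 : ContinuousWithinAt (zt ζ) (Ioi t) t := (zt_cont hζ ht).mono Ioi_subset_Ici_self
  have hcont : ContinuousWithinAt (fun r => β ^ 2 * (fxx r y + zt ζ r * fx r y ^ 2)) (Ioi t) t :=
    continuousWithinAt_const.mul (b1.add (b3.mul (b2.pow 2)))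
  have h := intervalIntegral.integral_hasDerivWithinAt_left (s := Ici t) (t := Ioi t) hi hmeas hcont
  have h2 := h.const_add (Real.log (Real.cosh y))
  refine h2.congr_of_eventuallyEq ?_ (f_eq hf ht' y)
  filter_upwards [self_mem_nhdsWithin, nhdsWithin_le_nhds (Iio_mem_nhds ht.2)] with r hr1 hr2
  exact f_eq hf ⟨ht.1.trans hr1, le_of_lt hr2⟩ y

theorem g_bd (hζ : IsCdf ζ) (hC : ∀ t ∈ Icc (0 : ℝ) 1, ∀ x, |fx t x| ≤ C ∧ |fxx t x| ≤ C)
    {r : ℝ} (hr : r ∈ Icc (0 : ℝ) 1) (y : ℝ) :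
    |β ^ 2 * (fxx r y + zt ζ r * fx r y ^ 2)| ≤ β ^ 2 * (C + C ^ 2) := by
  obtain ⟨h1, h2⟩ := hC r hr y
  obtain ⟨h3, h4⟩ := zt_mem hζ r
  rw [abs_mul, abs_of_nonneg (sq_nonneg β)]
  refine mul_le_mul_of_nonneg_left ?_ (sq_nonneg β)
  refine (abs_add_le _ _).trans (add_le_add h2 ?_)
  rw [abs_mul, abs_of_nonneg h3, abs_of_nonneg (sq_nonneg _)]
  have h5 : fx r y ^ 2 ≤ C ^ 2 := by
    rw [← sq_abs]
    exact pow_le_pow_left₀ (abs_nonneg _) h1 2
  calc zt ζ r * fx r y ^ 2 ≤ 1 * fx r y ^ 2 := mul_le_mul_of_nonneg_right h4 (sq_nonneg _)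
    _ ≤ C ^ 2 := by rw [one_mul]; exact h5

theorem f_lip (hζ : IsCdf ζ)
    (hd : ∀ t ∈ Icc (0 : ℝ) 1, ∀ x, HasDerivAt (f t) (fx t x) x ∧ HasDerivAt (fx t) (fxx t x) x)
    (c1 : ContinuousOn (fun p : ℝ × ℝ => fx p.1 p.2) (Icc 0 1 ×ˢ univ))
    (c2 : ContinuousOn (fun p : ℝ × ℝ => fxx p.1 p.2) (Icc 0 1 ×ˢ univ))
    (hC : ∀ t ∈ Icc (0 : ℝ) 1, ∀ x, |fx t x| ≤ C ∧ |fxx t x| ≤ C)
    (hf : ∀ t ∈ Icc (0 : ℝ) 1, ∀ x, f t x =
      Real.log (Real.cosh x) + ∫ r in t..1, β ^ 2 * (fxx r x + ζ r * fx r x ^ 2)) :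
    ∀ t ∈ Icc (0 : ℝ) 1, ∀ t' ∈ Icc (0 : ℝ) 1, ∀ y y',
      |f t y - f t' y'| ≤ (β ^ 2 * (C + C ^ 2) + C) * (|t - t'| + |y - y'|) := by
  intro t ht t' ht' y y'
  have hC0 : 0 ≤ C := (abs_nonneg _).trans (hC 0 ⟨le_rfl, zero_le_one⟩ 0).1
  have h1 : |f t y - f t' y| ≤ β ^ 2 * (C + C ^ 2) * |t - t'| := by
    have e : f t y - f t' y = ∫ r in t..t', β ^ 2 * (fxx r y + zt ζ r * fx r y ^ 2) := by
      rw [f_eq hf ht, f_eq hf ht']
      have := intervalIntegral.integral_add_adjacent_intervals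
        (g_int (β := β) hζ c1 c2 ht ht' y)
        (g_int (β := β) hζ c1 c2 ht' ⟨zero_le_one, le_rfl⟩ y)
      linarith
    rw [e, ← Real.norm_eq_abs]
    refine (intervalIntegral.norm_integral_le_of_norm_le_const
      (C := β ^ 2 * (C + C ^ 2)) fun r hr => ?_).trans (le_of_eq (by rw [abs_sub_comm]))
    exact g_bd hζ hC (uIcc_sub ht ht' (uIoc_subset_uIcc hr)) y
  have h2 : |f t' y - f t' y'| ≤ C * |y - y'| := by
    have := Convex.norm_image_sub_le_of_norm_hasDerivWithin_le (f := f t') (f' := fx t')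
      (C := C) (s := univ) (x := y') (y := y)
      (fun x _ => (hd t' ht' x).1.hasDerivWithinAt) (fun x _ => (hC t' ht' x).1) convex_univ
      (mem_univ _) (mem_univ _)
    simpa [Real.norm_eq_abs] using this
  have h3 : |f t y - f t' y'| ≤ |f t y - f t' y| + |f t' y - f t' y'| := abs_sub_le _ _ _
  have h4 : 0 ≤ |t - t'| := abs_nonneg _
  have h5 : 0 ≤ |y - y'| := abs_nonneg _
  have h6 : 0 ≤ β ^ 2 * (C + C ^ 2) := by positivity
  nlinarith

end fside

/-! ### the integral term -/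

section Rside

variable {a C : ℝ} {ζ : ℝ → ℝ} {H Hx : ℝ → ℝ → ℝ}

theorem slice2 (ha : 0 < a) (cH : ContinuousOn (fun p : ℝ × ℝ => H p.1 p.2) (Ici 0 ×ˢ univ))
    {t s : ℝ} (hts : t ≤ s) (x : ℝ) :
    ContinuousOn (fun r => H (a * (r - t)) x) (Icc s 1) := by
  refine cH.comp (Continuous.continuousOn (by fun_prop) :
    ContinuousOn (fun r : ℝ => (a * (r - t), x)) (Icc s 1)) fun r hr => ⟨?_, mem_univ _⟩
  exact mul_nonneg ha.le (by linarith [hr.1] : (0 : ℝ) ≤ r - t)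

theorem R_int (ha : 0 < a) (hζ : IsCdf ζ)
    (cH : ContinuousOn (fun p : ℝ × ℝ => H p.1 p.2) (Ici 0 ×ˢ univ))
    {t s s' : ℝ} (hts : t ≤ s) (hs : s ≤ s') (hs1 : s' ≤ 1) (x : ℝ) :
    IntervalIntegrable (fun r => (zt ζ r - 1) * H (a * (r - t)) x) volume s s' := by
  have h1 : Monotone (fun r => zt ζ r - 1) := fun u v huv => sub_le_sub_right (zt_mono hζ huv) 1
  refine h1.intervalIntegrable.mul_continuousOn ((slice2 ha cH hts x).mono ?_)
  rw [uIcc_of_le hs]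
  exact Icc_subset_Icc_right hs1

theorem rho_bd (hζ : IsCdf ζ) (r : ℝ) : |zt ζ r - 1| ≤ 1 := by
  obtain ⟨h1, h2⟩ := zt_mem hζ r
  rw [abs_le]; constructor <;> linarith

theorem R_deriv (ha : 0 < a) (hζ : IsCdf ζ)
    (hH : ∀ w x, 0 ≤ w → HasDerivAt (H w) (Hx w x) x)
    (cH : ContinuousOn (fun p : ℝ × ℝ => H p.1 p.2) (Ici 0 ×ˢ univ))
    (cHx : ContinuousOn (fun p : ℝ × ℝ => Hx p.1 p.2) (Ici 0 ×ˢ univ))
    (bd : ∀ w x, 0 ≤ w → |Hx w x| ≤ C) {t : ℝ} (ht : t ≤ 1) (x : ℝ) :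
    HasDerivAt (fun x => ∫ r in t..1, (zt ζ r - 1) * H (a * (r - t)) x)
      (∫ r in t..1, (zt ζ r - 1) * Hx (a * (r - t)) x) x := by
  have key := intervalIntegral.hasDerivAt_integral_of_dominated_loc_of_deriv_le (μ := volume)
    (a := t) (b := 1) (F := fun x r => (zt ζ r - 1) * H (a * (r - t)) x)
    (F' := fun x r => (zt ζ r - 1) * Hx (a * (r - t)) x) (x₀ := x) (s := univ)
    (bound := fun _ => C) univ_mem
    (Eventually.of_forall fun z =>
      (intervalIntegrable_iff.1 (R_int ha hζ cH le_rfl ht le_rfl z)).aestronglyMeasurable)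
    (R_int ha hζ cH le_rfl ht le_rfl x)
    (intervalIntegrable_iff.1 (R_int ha hζ cHx le_rfl ht le_rfl x)).aestronglyMeasurable
    (Eventually.of_forall fun r hr z _ => ?_) intervalIntegrable_const
    (Eventually.of_forall fun r hr z _ => ?_)
  · exact key.2
  · rw [uIoc_of_le ht] at hr
    have hw : 0 ≤ a * (r - t) := mul_nonneg ha.le (by linarith [hr.1])
    rw [Real.norm_eq_abs, abs_mul]
    calc |zt ζ r - 1| * |Hx (a * (r - t)) z| ≤ 1 * |Hx (a * (r - t)) z| :=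
          mul_le_mul_of_nonneg_right (rho_bd hζ r) (abs_nonneg _)
      _ ≤ C := by rw [one_mul]; exact bd _ _ hw
  · rw [uIoc_of_le ht] at hr
    have hw : 0 ≤ a * (r - t) := mul_nonneg ha.le (by linarith [hr.1])
    exact (hH _ z hw).const_mul _

theorem R_bd (ha : 0 < a) (hζ : IsCdf ζ) (bd : ∀ w x, 0 ≤ w → |H w x| ≤ C) {t : ℝ}
    (ht0 : 0 ≤ t) (ht : t ≤ 1) (x : ℝ) :
    |∫ r in t..1, (zt ζ r - 1) * H (a * (r - t)) x| ≤ C := by
  have hC0 : 0 ≤ C := (abs_nonneg _).trans (bd 0 0 le_rfl)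
  rw [← Real.norm_eq_abs]
  refine (intervalIntegral.norm_integral_le_of_norm_le_const (C := C) fun r hr => ?_).trans ?_
  · rw [uIoc_of_le ht] at hr
    have hw : 0 ≤ a * (r - t) := mul_nonneg ha.le (by linarith [hr.1])
    rw [Real.norm_eq_abs, abs_mul]
    calc |zt ζ r - 1| * |H (a * (r - t)) x| ≤ 1 * |H (a * (r - t)) x| :=
          mul_le_mul_of_nonneg_right (rho_bd hζ r) (abs_nonneg _)
      _ ≤ C := by rw [one_mul]; exact bd _ _ hw
  · rw [abs_of_nonneg (by linarith : (0 : ℝ) ≤ 1 - t)]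
    nlinarith

theorem R_lip (ha : 0 < a) (hζ : IsCdf ζ) {Hw : ℝ → ℝ → ℝ}
    (hH : ∀ w x, 0 ≤ w → HasDerivAt (H w) (Hx w x) x)
    (hw : ∀ w x, 0 < w → HasDerivAt (fun w => H w x) (Hw w x) w)
    (cH : ContinuousOn (fun p : ℝ × ℝ => H p.1 p.2) (Ici 0 ×ˢ univ))
    (bd0 : ∀ w x, 0 ≤ w → |H w x| ≤ C)
    (bd1 : ∀ w x, 0 ≤ w → |Hx w x| ≤ C)
    (bdw : ∀ w x, 0 < w → |Hw w x| ≤ 2 * C) :
    ∀ t ∈ Icc (0 : ℝ) 1, ∀ t' ∈ Icc (0 : ℝ) 1, ∀ x x',
      |(∫ r in t..1, (zt ζ r - 1) * H (a * (r - t)) x) -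
        ∫ r in t'..1, (zt ζ r - 1) * H (a * (r - t')) x'| ≤
        (C + 2 * C * a) * (|t - t'| + |x - x'|) := by
  have hC0 : 0 ≤ C := (abs_nonneg _).trans (bd0 0 0 le_rfl)
  have lx : ∀ w x x', 0 ≤ w → |H w x - H w x'| ≤ C * |x - x'| := by
    intro w x x' hw0
    have := Convex.norm_image_sub_le_of_norm_hasDerivWithin_le (f := H w) (f' := Hx w)
      (C := C) (s := univ) (x := x') (y := x)
      (fun z _ => (hH w z hw0).hasDerivWithinAt) (fun z _ => bd1 w z hw0) convex_univ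
      (mem_univ _) (mem_univ _)
    simpa [Real.norm_eq_abs] using this
  have lw : ∀ w w' x, 0 ≤ w → w ≤ w' → |H w' x - H w x| ≤ 2 * C * (w' - w) := by
    intro w w' x hw0 hww
    rcases hww.eq_or_lt with h | h
    · subst h; simp
    · have hc : ContinuousOn (fun w => H w x) (Icc w w') := by
        refine (cH.comp (Continuous.continuousOn (by fun_prop) :
          ContinuousOn (fun r : ℝ => (r, x)) (Icc w w')) fun r hr => ⟨?_, mem_univ _⟩)
        exact hw0.trans hr.1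
      obtain ⟨c, hc1, hc2⟩ := exists_hasDerivAt_eq_slope (fun w => H w x) (fun w => Hw w x) h hc
        fun z hz => hw z x (hw0.trans_lt hz.1)
      have h3 : H w' x - H w x = Hw c x * (w' - w) := by
        rw [hc2]
        field_simp [(sub_pos.2 h).ne']
      rw [h3, abs_mul, abs_of_pos (sub_pos.2 h)]
      exact mul_le_mul_of_nonneg_right (bdw c x (hw0.trans_lt hc1.1)) (sub_pos.2 h).le
  have main : ∀ t ∈ Icc (0 : ℝ) 1, ∀ t' ∈ Icc (0 : ℝ) 1, t ≤ t' → ∀ x x',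
      |(∫ r in t..1, (zt ζ r - 1) * H (a * (r - t)) x) -
        ∫ r in t'..1, (zt ζ r - 1) * H (a * (r - t')) x'| ≤
        (C + 2 * C * a) * (|t - t'| + |x - x'|) := by
    intro t ht t' ht' htt x x'
    have i1 := R_int (H := H) ha hζ cH le_rfl htt ht'.2 x
    have i2 := R_int (H := H) ha hζ cH htt ht'.2 le_rfl x
    have i3 := R_int (H := H) ha hζ cH (le_refl t') ht'.2 le_rfl x'
    rw [← intervalIntegral.integral_add_adjacent_intervals i1 i2, add_sub_assoc,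
      ← intervalIntegral.integral_sub i2 i3]
    have b1 : |∫ r in t..t', (zt ζ r - 1) * H (a * (r - t)) x| ≤ C * |t' - t| := by
      rw [← Real.norm_eq_abs]
      refine intervalIntegral.norm_integral_le_of_norm_le_const fun r hr => ?_
      rw [uIoc_of_le htt] at hr
      have hw : 0 ≤ a * (r - t) := mul_nonneg ha.le (by linarith [hr.1])
      rw [Real.norm_eq_abs, abs_mul]
      calc |zt ζ r - 1| * |H (a * (r - t)) x| ≤ 1 * |H (a * (r - t)) x| :=
            mul_le_mul_of_nonneg_right (rho_bd hζ r) (abs_nonneg _)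
        _ ≤ C := by rw [one_mul]; exact bd0 _ _ hw
    have b2 : |∫ r in t'..1, ((zt ζ r - 1) * H (a * (r - t)) x -
        (zt ζ r - 1) * H (a * (r - t')) x')| ≤ (2 * C * (a * (t' - t)) + C * |x - x'|) *
          |1 - t'| := by
      rw [← Real.norm_eq_abs]
      refine intervalIntegral.norm_integral_le_of_norm_le_const fun r hr => ?_
      rw [uIoc_of_le ht'.2] at hr
      have hw1 : 0 ≤ a * (r - t') := mul_nonneg ha.le (by linarith [hr.1])
      have hw2 : a * (r - t') ≤ a * (r - t) := mul_le_mul_of_nonneg_left (by linarith) ha.le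
      have e : (zt ζ r - 1) * H (a * (r - t)) x - (zt ζ r - 1) * H (a * (r - t')) x' =
          (zt ζ r - 1) * (H (a * (r - t)) x - H (a * (r - t')) x') := by ring
      rw [Real.norm_eq_abs, e, abs_mul]
      have c1 : |H (a * (r - t)) x - H (a * (r - t')) x'| ≤
          2 * C * (a * (t' - t)) + C * |x - x'| := by
        have d1 := lw _ _ x hw1 hw2
        have d2 := lx _ x x' hw1
        have d3 : a * (r - t) - a * (r - t') = a * (t' - t) := by ring
        rw [d3] at d1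
        exact (abs_sub_le _ (H (a * (r - t')) x) _).trans (add_le_add d1 d2)
      calc |zt ζ r - 1| * |H (a * (r - t)) x - H (a * (r - t')) x'|
          ≤ 1 * |H (a * (r - t)) x - H (a * (r - t')) x'| :=
            mul_le_mul_of_nonneg_right (rho_bd hζ r) (abs_nonneg _)
        _ ≤ _ := by rw [one_mul]; exact c1
    refine (abs_add_le _ _).trans ((add_le_add b1 b2).trans ?_)
    have e1 : |t - t'| = t' - t := by rw [abs_sub_comm, abs_of_nonneg (sub_nonneg.2 htt)]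
    have e2 : |t' - t| = t' - t := abs_of_nonneg (sub_nonneg.2 htt)
    have e3 : |1 - t'| = 1 - t' := abs_of_nonneg (sub_nonneg.2 ht'.2)
    rw [e1, e2, e3]
    have h1 : 0 ≤ t' - t := sub_nonneg.2 htt
    have h2 : 0 ≤ |x - x'| := abs_nonneg _
    have h3 : 0 ≤ 2 * C * (a * (t' - t)) + C * |x - x'| := by positivity
    have h4 : (2 * C * (a * (t' - t)) + C * |x - x'|) * (1 - t') ≤
        2 * C * (a * (t' - t)) + C * |x - x'| := by
      nlinarith [ht'.1]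
    have h5 : 0 ≤ C * a * |x - x'| := by positivity
    nlinarith
  intro t ht t' ht' x x'
  rcases le_total t t' with h | h
  · exact main t ht t' ht' h x x'
  · have := main t' ht' t ht h x' x
    rw [abs_sub_comm, abs_sub_comm t t', abs_sub_comm x x']
    exact this

end Rside

/-! ### the theorem -/

theorem sh {F : ℝ → ℝ} {F' x : ℝ} (h : HasDerivAt F F' x) :
    HasDerivAt (fun u => F (x + u)) F' 0 :=
  HasDerivAt.comp_const_add x 0 (by simpa using h)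

theorem cont_th : Continuous Real.tanh :=
  continuous_iff_continuousAt.2 fun x => (hasDerivAt_th x).continuousAt

theorem cont_L : Continuous (fun x => Real.log (Real.cosh x)) :=
  Real.continuous_cosh.log fun x => (Real.cosh_pos x).ne'

theorem hasDerivAt_S (x : ℝ) : HasDerivAt (fun x => 1 - Real.tanh x ^ 2)
    (-(2 * Real.tanh x * (1 - Real.tanh x ^ 2))) x := by
  have h := ((hasDerivAt_th x).pow 2).const_sub 1
  have e : -(2 * Real.tanh x * (1 - Real.tanh x ^ 2)) =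
      -(((2 : ℕ) : ℝ) * Real.tanh x ^ (2 - 1) * (1 - Real.tanh x ^ 2)) := by
    norm_num
  rw [e]
  exact h

theorem t_PH1 (hMAX : St_MAX) (hLEIB : St_LEIB) (hKD : St_KD) : St_PH1 := by
  intro β q ζ f hβ hq0 hq1 hζ hP x y
  obtain ⟨fx, fxx, hd, c1, c2, ⟨C0, hC0⟩, hf⟩ := hP
  obtain ⟨Kx, Kxx, C1, hK, hKw, cK, cKx, cKxx, hKb, hK0⟩ := hKD
  obtain ⟨a, ha_def⟩ : ∃ a : ℝ, a = 2 * β ^ 2 := ⟨_, rfl⟩
  have ha : 0 < a := by rw [ha_def]; positivity
  have hC0' : 0 ≤ C0 := (abs_nonneg _).trans (hC0 0 ⟨le_rfl, zero_le_one⟩ 0).1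
  have hC1' : 0 ≤ C1 := (abs_nonneg _).trans (hKb 0 0 le_rfl).1
  obtain ⟨R, hR⟩ : ∃ R : ℝ → ℝ → ℝ, R = fun t x => ∫ r in t..1, (zt ζ r - 1) * KK (a * (r - t)) x :=
    ⟨_, rfl⟩
  obtain ⟨Rx, hRx⟩ : ∃ R : ℝ → ℝ → ℝ, R = fun t x => ∫ r in t..1, (zt ζ r - 1) * Kx (a * (r - t)) x :=
    ⟨_, rfl⟩
  obtain ⟨Rxx, hRxx⟩ : ∃ R : ℝ → ℝ → ℝ,
    R = fun t x => ∫ r in t..1, (zt ζ r - 1) * Kxx (a * (r - t)) x := ⟨_, rfl⟩
  -- derivatives of `R`
  have dR : ∀ t ≤ 1, ∀ x, HasDerivAt (R t) (Rx t x) x := by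
    intro t ht x
    rw [hR, hRx]
    exact R_deriv (C := C1) ha hζ (fun w x hw => (hK w x hw).1) cK cKx
      (fun w x hw => (hKb w x hw).2.1) ht x
  have dRx : ∀ t ≤ 1, ∀ x, HasDerivAt (Rx t) (Rxx t x) x := by
    intro t ht x
    rw [hRx, hRxx]
    exact R_deriv (C := C1) ha hζ (fun w x hw => (hK w x hw).2) cKx cKxx
      (fun w x hw => (hKb w x hw).2.2) ht x
  have bR : ∀ t, 0 ≤ t → t ≤ 1 → ∀ x, |R t x| ≤ C1 := by
    intro t h0 h1 x
    rw [hR]
    exact R_bd ha hζ (fun w x hw => (hKb w x hw).1) h0 h1 x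
  have dRt : ∀ t ∈ Ico q 1, ∀ x, HasDerivWithinAt (fun τ => R τ x)
      (-((zt ζ t - 1) * Real.tanh x ^ 2) - a * (Rxx t x / 2 + Real.tanh x * Rx t x)) (Ici t) t := by
    intro t ht x
    have ht1 : t ≤ 1 := ht.2.le
    have h := hLEIB a t 1 1 (fun r => zt ζ r - 1) (fun _ w => KK w x)
      (fun _ w => Kxx w x / 2 + Real.tanh x * Kx w x) ha ht.2
      ((zt_mono hζ).measurable.sub_const 1) (fun r _ => rho_bd hζ r)
      ((zt_cont hζ ⟨hq0.trans ht.1, ht.2⟩).sub continuousWithinAt_const)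
      (fun r _ w hw => hKw w x hw)
      ((cK.comp (Continuous.continuousOn (by fun_prop) :
        ContinuousOn (fun p : ℝ × ℝ => (p.2, x)) (Icc t 1 ×ˢ Ici 0))
        fun p hp => ⟨hp.2, mem_univ _⟩))
      (((cKxx.comp (Continuous.continuousOn (by fun_prop) :
        ContinuousOn (fun p : ℝ × ℝ => (p.2, x)) (Icc t 1 ×ˢ Ici 0))
        fun p hp => ⟨hp.2, mem_univ _⟩).div_const 2).add
        (continuousOn_const.mul (cKx.comp (Continuous.continuousOn (by fun_prop) :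
        ContinuousOn (fun p : ℝ × ℝ => (p.2, x)) (Icc t 1 ×ˢ Ici 0))
        fun p hp => ⟨hp.2, mem_univ _⟩)))
    have e : (∫ r in t..1, (zt ζ r - 1) * (Kxx (a * (r - t)) x / 2 +
        Real.tanh x * Kx (a * (r - t)) x)) = Rxx t x / 2 + Real.tanh x * Rx t x := by
      rw [hRxx, hRx]
      have e1 : (fun r => (zt ζ r - 1) * (Kxx (a * (r - t)) x / 2 +
          Real.tanh x * Kx (a * (r - t)) x)) = fun r => (1 / 2) * ((zt ζ r - 1) *
          Kxx (a * (r - t)) x) + Real.tanh x * ((zt ζ r - 1) * Kx (a * (r - t)) x) := by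
        funext r; ring
      simp only [e1]
      rw [intervalIntegral.integral_add
        ((R_int (H := Kxx) ha hζ cKxx le_rfl ht1 le_rfl x).const_mul _)
        ((R_int (H := Kx) ha hζ cKx le_rfl ht1 le_rfl x).const_mul _),
        intervalIntegral.integral_const_mul, intervalIntegral.integral_const_mul]
      ring
    rw [e, hK0] at h
    rw [hR]
    exact h
  have fd : ∀ t ∈ Ico q 1, ∀ y, HasDerivWithinAt (fun τ => f τ y)
      (-(β ^ 2 * (fxx t y + zt ζ t * fx t y ^ 2))) (Ici t) t := fun t ht y =>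
    f_der hζ c1 c2 hf ⟨hq0.trans ht.1, ht.2⟩ y
  obtain ⟨M0, hM0⟩ : ∃ M : ℝ, M = β ^ 2 * (C0 + C0 ^ 2) := ⟨_, rfl⟩
  have hM0' : 0 ≤ M0 := by rw [hM0]; positivity
  have flow : ∀ t, 0 ≤ t → t ≤ 1 → ∀ y, -M0 ≤ f t y := by
    intro t h0 h1 y
    rw [f_eq hf ⟨h0, h1⟩ y]
    have b : |∫ r in t..1, β ^ 2 * (fxx r y + zt ζ r * fx r y ^ 2)| ≤ M0 * |1 - t| := by
      rw [← Real.norm_eq_abs]
      refine intervalIntegral.norm_integral_le_of_norm_le_const fun r hr => ?_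
      rw [hM0]
      exact g_bd hζ hC0 (uIcc_sub ⟨h0, h1⟩ ⟨zero_le_one, le_rfl⟩ (uIoc_subset_uIcc hr)) y
    rw [abs_of_nonneg (by linarith : (0 : ℝ) ≤ 1 - t)] at b
    have b2 := (abs_le.1 b).1
    have b3 := L_nonneg y
    nlinarith
  obtain ⟨C, hC⟩ : ∃ C : ℝ, C = 3 + 2 * β ^ 2 + M0 + β ^ 2 + β ^ 2 * C1 := ⟨_, rfl⟩
  have hb2 : 0 ≤ β ^ 2 := sq_nonneg β
  have hbC : 0 ≤ β ^ 2 * C1 := by positivity
  have key := hMAX a q 1 C
    (fun t x y => f t y - (Real.log (Real.cosh x) + β ^ 2 * (1 - t) + β ^ 2 * R t x +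
      (y - x) * Real.tanh x))
    (fun t x y => -(β ^ 2 * (fxx t y + zt ζ t * fx t y ^ 2)) - (-β ^ 2 + β ^ 2 *
      (-((zt ζ t - 1) * Real.tanh x ^ 2) - a * (Rxx t x / 2 + Real.tanh x * Rx t x))))
    (fun t x y => fx t y - (Real.tanh x + β ^ 2 * Rx t x + (y - x) * (1 - Real.tanh x ^ 2)))
    (fun t x y => fxx t y - ((1 - Real.tanh x ^ 2) + β ^ 2 * Rxx t x +
      (y - x) * (-(2 * Real.tanh x * (1 - Real.tanh x ^ 2)))))
    (fun t x y => -(Real.tanh x + β ^ 2 * Rx t x +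
      (-Real.tanh x + (y - x) * (1 - Real.tanh x ^ 2))))
    (fun t x y => fx t y - Real.tanh x)
    (fun t x y => a * Real.tanh x) (fun t x y => a * zt ζ t * Real.tanh x) ha hq1 ?_ ?_ ?_ ?_
    q ⟨le_rfl, hq1⟩ x y
  · have e : (∫ r in q..1, (ζ r - 1) * KK (2 * β ^ 2 * (r - q)) x) = R q x := by
      rw [hR, ha_def]
      refine intervalIntegral.integral_congr fun r hr => ?_
      show (ζ r - 1) * KK (2 * β ^ 2 * (r - q)) x = (zt ζ r - 1) * KK (2 * β ^ 2 * (r - q)) x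
      rw [zt_eq (uIcc_sub ⟨hq0, hq1⟩ ⟨zero_le_one, le_rfl⟩ hr)]
    rw [e]
    have key' : 0 ≤ f q y - (Real.log (Real.cosh x) + β ^ 2 * (1 - q) + β ^ 2 * R q x +
      (y - x) * Real.tanh x) := key
    linarith
  · -- continuity
    have cf : ContinuousOn (fun p : ℝ × ℝ => f p.1 p.2) (Icc 0 1 ×ˢ univ) :=
      cont_of_lip (f_lip hζ hd c1 c2 hC0 hf)
    have cR : ContinuousOn (fun p : ℝ × ℝ => R p.1 p.2) (Icc 0 1 ×ˢ univ) := by
      rw [hR]
      refine cont_of_lip (R_lip (C := C1) (Hw := fun w x => Kxx w x / 2 + Real.tanh x * Kx w x)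
        ha hζ (fun w x hw => (hK w x hw).1) (fun w x hw => hKw w x hw) cK
        (fun w x hw => (hKb w x hw).1) (fun w x hw => (hKb w x hw).2.1) ?_)
      intro w x hw
      obtain ⟨-, h2, h3⟩ := hKb w x hw.le
      have h4 := abs_th x
      calc |Kxx w x / 2 + Real.tanh x * Kx w x| ≤ |Kxx w x / 2| + |Real.tanh x * Kx w x| :=
            abs_add_le _ _
        _ = |Kxx w x| / 2 + |Real.tanh x| * |Kx w x| := by
            rw [abs_div, abs_mul, abs_of_pos (by norm_num : (0 : ℝ) < 2)]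
        _ ≤ C1 / 2 + 1 * C1 := by
            have h5 : |Real.tanh x| * |Kx w x| ≤ 1 * C1 :=
              mul_le_mul h4 h2 (abs_nonneg _) zero_le_one
            linarith
        _ ≤ 2 * C1 := by linarith
    have m1 : ContinuousOn (fun p : ℝ × ℝ × ℝ => f p.1 p.2.2) (Icc q 1 ×ˢ univ) :=
      cf.comp (Continuous.continuousOn (by fun_prop) :
        ContinuousOn (fun p : ℝ × ℝ × ℝ => (p.1, p.2.2)) (Icc q 1 ×ˢ univ))
        fun p hp => ⟨⟨hq0.trans hp.1.1, hp.1.2⟩, mem_univ _⟩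
    have m2 : ContinuousOn (fun p : ℝ × ℝ × ℝ => R p.1 p.2.1) (Icc q 1 ×ˢ univ) :=
      cR.comp (Continuous.continuousOn (by fun_prop) :
        ContinuousOn (fun p : ℝ × ℝ × ℝ => (p.1, p.2.1)) (Icc q 1 ×ˢ univ))
        fun p hp => ⟨⟨hq0.trans hp.1.1, hp.1.2⟩, mem_univ _⟩
    have m3 : Continuous (fun p : ℝ × ℝ × ℝ => Real.log (Real.cosh p.2.1)) :=
      cont_L.comp (continuous_fst.comp continuous_snd)
    have m4 : Continuous (fun p : ℝ × ℝ × ℝ => Real.tanh p.2.1) :=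
      cont_th.comp (continuous_fst.comp continuous_snd)
    exact m1.sub (((m3.continuousOn.add (Continuous.continuousOn (by fun_prop))).add
      (continuousOn_const.mul m2)).add
      ((Continuous.continuousOn (by fun_prop)).mul m4.continuousOn))
  · intro t ht x y
    have ht0 : 0 ≤ t := hq0.trans ht.1
    have ht' : t ∈ Icc (0 : ℝ) 1 := ⟨ht0, ht.2.le⟩
    obtain ⟨z0, z1⟩ := zt_mem hζ t
    have th1 := abs_th x
    refine ⟨?_, ?_, ?_, ?_, ?_, ?_, ?_, ?_⟩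
    · have h1 := fd t ht y
      have h2 := (dRt t ht x).const_mul (β ^ 2)
      have h3 : HasDerivWithinAt (fun τ : ℝ => β ^ 2 * (1 - τ)) (-β ^ 2) (Ici t) t := by
        have h6 := (((hasDerivAt_id' t).const_sub 1).const_mul (β ^ 2)).hasDerivWithinAt (s := Ici t)
        have e6 : -β ^ 2 = β ^ 2 * -1 := by ring
        rw [e6]
        exact h6
      have h4 := h1.sub (((h3.const_add (Real.log (Real.cosh x))).add h2).add_const
        ((y - x) * Real.tanh x))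
      exact h4
    · have e : (fun u : ℝ => f t (y + u) - (Real.log (Real.cosh (x + u)) + β ^ 2 * (1 - t) +
          β ^ 2 * R t (x + u) + (y + u - (x + u)) * Real.tanh (x + u))) = fun u =>
          f t (y + u) - (Real.log (Real.cosh (x + u)) + β ^ 2 * (1 - t) +
          β ^ 2 * R t (x + u) + (y - x) * Real.tanh (x + u)) := by
        funext u; ring
      show HasDerivAt (fun u : ℝ => f t (y + u) - (Real.log (Real.cosh (x + u)) +
        β ^ 2 * (1 - t) + β ^ 2 * R t (x + u) + (y + u - (x + u)) * Real.tanh (x + u))) _ 0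
      rw [e]
      have h1 := sh (hd t ht' y).1
      have h2 := sh (hasDerivAt_L x)
      have h3 := (sh (dR t ht.2.le x)).const_mul (β ^ 2)
      have h4 := (sh (hasDerivAt_th x)).const_mul (y - x)
      exact h1.sub (((h2.add_const (β ^ 2 * (1 - t))).add h3).add h4)
    · have e : (fun u : ℝ => fx t (y + u) - (Real.tanh (x + u) + β ^ 2 * Rx t (x + u) +
          (y + u - (x + u)) * (1 - Real.tanh (x + u) ^ 2))) = fun u =>
          fx t (y + u) - (Real.tanh (x + u) + β ^ 2 * Rx t (x + u) +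
          (y - x) * (1 - Real.tanh (x + u) ^ 2)) := by
        funext u; ring
      show HasDerivAt (fun u : ℝ => fx t (y + u) - (Real.tanh (x + u) + β ^ 2 * Rx t (x + u) +
          (y + u - (x + u)) * (1 - Real.tanh (x + u) ^ 2))) _ 0
      rw [e]
      have h1 := sh (hd t ht' y).2
      have h2 := sh (hasDerivAt_th x)
      have h3 := (sh (dRx t ht.2.le x)).const_mul (β ^ 2)
      have h4 := (sh (hasDerivAt_S x)).const_mul (y - x)
      exact h1.sub ((h2.add h3).add h4)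
    · have h2 := hasDerivAt_L x
      have h3 := (dR t ht.2.le x).const_mul (β ^ 2)
      have h4 := ((hasDerivAt_id' x).const_sub y).mul (hasDerivAt_th x)
      have h5 := (((h2.add_const (β ^ 2 * (1 - t))).add h3).add h4).const_sub (f t y)
      have e5 : -(Real.tanh x + β ^ 2 * Rx t x +
          (-Real.tanh x + (y - x) * (1 - Real.tanh x ^ 2))) = -(Real.tanh x + β ^ 2 * Rx t x +
          (-1 * Real.tanh x + (y - x) * (1 - Real.tanh x ^ 2))) := by ring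
      show HasDerivAt _ (-(Real.tanh x + β ^ 2 * Rx t x +
          (-Real.tanh x + (y - x) * (1 - Real.tanh x ^ 2)))) x
      rw [e5]
      exact h5
    · have h1 := (hd t ht' y).1
      have h4 := ((hasDerivAt_id' y).sub_const x).mul_const (Real.tanh x)
      have h5 := h1.sub (h4.const_add (Real.log (Real.cosh x) + β ^ 2 * (1 - t) + β ^ 2 * R t x))
      have e5 : fx t y - Real.tanh x = fx t y - 1 * Real.tanh x := by ring
      show HasDerivAt _ (fx t y - Real.tanh x) y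
      rw [e5]
      exact h5
    · show |a * Real.tanh x| ≤ C
      rw [abs_mul, abs_of_pos ha]
      have : a * |Real.tanh x| ≤ a * 1 := mul_le_mul_of_nonneg_left th1 ha.le
      rw [hC]; rw [ha_def] at this ⊢; linarith
    · show |a * zt ζ t * Real.tanh x| ≤ C
      rw [abs_mul, abs_mul, abs_of_pos ha, abs_of_nonneg z0]
      have h1 : a * zt ζ t ≤ a * 1 := mul_le_mul_of_nonneg_left z1 ha.le
      have h2 : a * zt ζ t * |Real.tanh x| ≤ a * zt ζ t * 1 :=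
        mul_le_mul_of_nonneg_left th1 (mul_nonneg ha.le z0)
      rw [hC]; rw [ha_def] at h1 h2 ⊢; linarith
    · show -(β ^ 2 * (fxx t y + zt ζ t * fx t y ^ 2)) - (-β ^ 2 + β ^ 2 *
        (-((zt ζ t - 1) * Real.tanh x ^ 2) - a * (Rxx t x / 2 + Real.tanh x * Rx t x))) +
        a / 2 * (fxx t y - ((1 - Real.tanh x ^ 2) + β ^ 2 * Rxx t x +
          (y - x) * (-(2 * Real.tanh x * (1 - Real.tanh x ^ 2))))) +
        a * Real.tanh x * (-(Real.tanh x + β ^ 2 * Rx t x +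
          (-Real.tanh x + (y - x) * (1 - Real.tanh x ^ 2)))) +
        a * zt ζ t * Real.tanh x * (fx t y - Real.tanh x) ≤ 0
      have e : -(β ^ 2 * (fxx t y + zt ζ t * fx t y ^ 2)) - (-β ^ 2 + β ^ 2 *
        (-((zt ζ t - 1) * Real.tanh x ^ 2) - a * (Rxx t x / 2 + Real.tanh x * Rx t x))) +
        a / 2 * (fxx t y - ((1 - Real.tanh x ^ 2) + β ^ 2 * Rxx t x +
          (y - x) * (-(2 * Real.tanh x * (1 - Real.tanh x ^ 2))))) +
        a * Real.tanh x * (-(Real.tanh x + β ^ 2 * Rx t x +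
          (-Real.tanh x + (y - x) * (1 - Real.tanh x ^ 2)))) +
        a * zt ζ t * Real.tanh x * (fx t y - Real.tanh x) =
        -(β ^ 2 * zt ζ t * (fx t y - Real.tanh x) ^ 2) := by
        rw [ha_def]; ring
      rw [e]
      have : 0 ≤ β ^ 2 * zt ζ t * (fx t y - Real.tanh x) ^ 2 := by positivity
      linarith
  · intro x y
    show 0 ≤ f 1 y - (Real.log (Real.cosh x) + β ^ 2 * (1 - 1) + β ^ 2 * R 1 x +
      (y - x) * Real.tanh x)
    have h1 : f 1 y = Real.log (Real.cosh y) := by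
      rw [hf 1 ⟨zero_le_one, le_rfl⟩ y]; simp
    have h2 : R 1 x = 0 := by rw [hR]; simp
    rw [h1, h2]
    have := L_convex x y
    linarith
  · intro t ht x y
    show -(C * (1 + |x| + |y|)) ≤ f t y - (Real.log (Real.cosh x) + β ^ 2 * (1 - t) +
      β ^ 2 * R t x + (y - x) * Real.tanh x)
    have ht0 : 0 ≤ t := hq0.trans ht.1
    have h1 := flow t ht0 ht.2 y
    have h2 := L_le x
    have h3 : β ^ 2 * (1 - t) ≤ β ^ 2 := by nlinarith
    have h4 : β ^ 2 * R t x ≤ β ^ 2 * C1 :=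
      mul_le_mul_of_nonneg_left ((le_abs_self _).trans (bR t ht0 ht.2 x)) hb2
    have h5 : (y - x) * Real.tanh x ≤ |x| + |y| := by
      refine (le_abs_self _).trans ?_
      rw [abs_mul]
      have h6 : |y - x| * |Real.tanh x| ≤ |y - x| * 1 :=
        mul_le_mul_of_nonneg_left (abs_th x) (abs_nonneg _)
      have h7 : |y - x| ≤ |y| + |x| := abs_sub y x
      linarith
    have h8 : 0 ≤ |x| := abs_nonneg x
    have h9 : 0 ≤ |y| := abs_nonneg y
    have hC3 : 3 ≤ C := by rw [hC]; linarith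
    have h10 : 3 * (|x| + |y|) ≤ C * (|x| + |y|) :=
      mul_le_mul_of_nonneg_right hC3 (add_nonneg h8 h9)
    have h11 : C * (1 + |x| + |y|) = C + C * (|x| + |y|) := by ring
    rw [h11]
    have h12 : M0 + β ^ 2 + β ^ 2 * C1 ≤ C := by rw [hC]; linarith
    linarith

end Pool.TH355.AT
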